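import Pool.Agent.CSW.Free

/-!
# The gap lemma

`pw g n = x^{g 1 - g 0} y x^{g 2 - g 1} y ... x^{g n - g (n-1)} y`: the path crosses the row `j` in the gap `g j`.
-/

namespace Pool.Agent.CSW

/-- the path with the gaps `g 1, ..., g n`, started at `g 0` -/
def pw (g : ℕ → ℤ) : ℕ → F2
  | 0 => 1
  | n + 1 => pw g n * fx ^ (g (n + 1) - g n) * fy

/-- the character of `s n` -/
def cz (n : ℕ) : ZMod 2 := if c n then 1 else 0

theorem chi_of (n : ℕ) : chi (FreeGroup.of n) = Multiplicative.ofAdd (cz n) := by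
  simp [chi, cz]

/-- the word of `a n` -/
def wi (i : ℕ) : FreeGroup ℕ := FreeGroup.of i * (FreeGroup.of (i + 1))⁻¹

theorem lift_wi (i : ℕ) : FreeGroup.lift sn (wi i) = il (an i) := by
  simp only [wi, map_mul, map_inv, FreeGroup.lift_apply_of]
  rw [sn_succ', map_inv]
  have := an_comm i
  calc sn i * (sn i * (il (an i))⁻¹)⁻¹ = sn i * il (an i) * (sn i)⁻¹ := by group
    _ = il (an i) * sn i * (sn i)⁻¹ := by rw [this]
    _ = _ := by group

theorem z2_neg (a : ZMod 2) : -a = a := by revert a; decide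

theorem chi_wi (i : ℕ) : chi (wi i) = Multiplicative.ofAdd (cz i + cz (i + 1)) := by
  simp only [wi, map_mul, map_inv, chi_of]
  rw [← ofAdd_neg, z2_neg, ← ofAdd_add]

theorem pw_word (g : ℕ → ℤ) (n : ℕ) : ∃ w : FreeGroup ℕ,
    FreeGroup.lift sn w = il (pw g n * (fy ^ n)⁻¹) ∧
    chi w = Multiplicative.ofAdd (∑ i ∈ Finset.range n,
      ((g (i + 1) - g i : ℤ) : ZMod 2) * (cz i + cz (i + 1))) := by
  induction n with
  | zero => exact ⟨1, by simp [pw], by simp⟩
  | succ n ih =>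
    obtain ⟨w, h1, h2⟩ := ih
    refine ⟨w * wi n ^ (g (n + 1) - g n), ?_, ?_⟩
    · rw [map_mul, map_zpow, lift_wi, h1, ← map_zpow, ← map_mul]
      congr 1
      have : an n ^ (g (n + 1) - g n) = fy ^ n * fx ^ (g (n + 1) - g n) * (fy ^ n)⁻¹ := by
        rw [an, conj_zpow]
      rw [this, pw, pow_succ]; group
    · rw [map_mul, map_zpow, h2, chi_wi, Finset.sum_range_succ, ← ofAdd_zsmul, ← ofAdd_add,
        zsmul_eq_mul]

theorem cz_two (n : ℕ) : cz n + cz (n + 2) = if n % 2 = 0 then 1 else 0 := by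
  have : n % 4 = 0 ∨ n % 4 = 1 ∨ n % 4 = 2 ∨ n % 4 = 3 := by omega
  rcases this with h | h | h | h
  · have h1 : (n + 2) % 4 = 2 := by omega
    have h2 : n % 2 = 0 := by omega
    simp [cz, c, h, h1, h2]
  · have h1 : (n + 2) % 4 = 3 := by omega
    have h2 : n % 2 = 1 := by omega
    simp [cz, c, h, h1, h2]
  · have h1 : (n + 2) % 4 = 0 := by omega
    have h2 : n % 2 = 0 := by omega
    simp [cz, c, h, h1, h2]
  · have h1 : (n + 2) % 4 = 1 := by omega
    have h2 : n % 2 = 1 := by omega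
    simp [cz, c, h, h1, h2]

theorem abel (d : ℕ → ZMod 2) (h0 : d 0 = 0) (n : ℕ) :
    ∑ i ∈ Finset.range n, (d (i + 1) - d i) * (cz i + cz (i + 1)) - d n * (cz n + cz (n + 1)) =
    ∑ i ∈ Finset.range (n + 1), if i % 2 = 1 then d i else 0 := by
  induction n with
  | zero => simp [h0]
  | succ n ih =>
    rw [Finset.sum_range_succ, Finset.sum_range_succ _ (n + 1), ← ih]
    have h1 : (d (n + 1) - d n) * (cz n + cz (n + 1)) - d (n + 1) * (cz (n + 1) + cz (n + 1 + 1)) +
        d n * (cz n + cz (n + 1)) = if (n + 1) % 2 = 1 then d (n + 1) else 0 := by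
      have h2 := cz_two n
      have h3 : (d (n + 1) - d n) * (cz n + cz (n + 1)) - d (n + 1) * (cz (n + 1) + cz (n + 1 + 1)) +
        d n * (cz n + cz (n + 1)) = d (n + 1) * (cz n - cz (n + 2)) := by
        show _ = _
        rw [show n + 1 + 1 = n + 2 from rfl]; ring
      rw [h3, sub_eq_add_neg, z2_neg, h2]
      have : (n % 2 = 0) ↔ ((n + 1) % 2 = 1) := by omega
      by_cases h4 : n % 2 = 0
      · rw [if_pos h4, if_pos (this.1 h4), mul_one]
      · rw [if_neg h4, if_neg (fun h5 => h4 (this.2 h5)), mul_zero]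
    rw [← h1]; ring

/-- **Gap lemma.** -/
theorem gap {Γ : Subgroup F2} (h : WIn Γ) (g g' : ℕ → ℤ) (n : ℕ) (m : ℤ) (h0 : g 0 = g' 0)
    (hp : Even (∑ i ∈ Finset.range (n + 1), if i % 2 = 1 then g i - g' i else 0)) :
    pw g n * fx ^ (m - g n) * (pw g' n * fx ^ (m - g' n))⁻¹ ∈ Γ := by
  obtain ⟨w, h1, h2⟩ := pw_word g n
  obtain ⟨w', h1', h2'⟩ := pw_word g' n
  have key := theoremA (input h) (w * wi n ^ (g' n - g n) * w'⁻¹)
  have e1 : FreeGroup.lift sn (w * wi n ^ (g' n - g n) * w'⁻¹) =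
      il (pw g n * fx ^ (m - g n) * (pw g' n * fx ^ (m - g' n))⁻¹) := by
    simp only [map_mul, map_inv, map_zpow, lift_wi, h1, h1']
    simp only [← map_inv, ← map_zpow, ← map_mul]
    congr 1
    have : an n ^ (g' n - g n) = fy ^ n * fx ^ (g' n - g n) * (fy ^ n)⁻¹ := by
      rw [an, conj_zpow]
    rw [this]
    have e2 : (fx : F2) ^ (g' n - g n) = fx ^ (m - g n) * (fx ^ (m - g' n))⁻¹ := by
      rw [← zpow_neg, ← zpow_add]; congr 1; ring
    rw [e2]; group
  have e2 : chi (w * wi n ^ (g' n - g n) * w'⁻¹) = 1 := by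
    simp only [map_mul, map_inv, map_zpow, chi_wi, h2, h2']
    rw [← ofAdd_zsmul, ← ofAdd_neg, ← ofAdd_add, ← ofAdd_add]
    rw [ofAdd_eq_one]
    have h3 := abel (fun i => ((g i - g' i : ℤ) : ZMod 2)) (by simp [h0]) n
    have h4 : (∑ i ∈ Finset.range (n + 1), if i % 2 = 1 then ((g i - g' i : ℤ) : ZMod 2) else 0) = 0 := by
      have h5 : (∑ i ∈ Finset.range (n + 1), if i % 2 = 1 then ((g i - g' i : ℤ) : ZMod 2) else 0) =
          ((∑ i ∈ Finset.range (n + 1), if i % 2 = 1 then g i - g' i else 0 : ℤ) : ZMod 2) := by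
        rw [Int.cast_sum]
        refine Finset.sum_congr rfl fun i _ => ?_
        split_ifs <;> simp
      rw [h5]
      obtain ⟨k, hk⟩ := hp
      rw [hk, ← two_mul, Int.cast_mul]
      have : ((2 : ℤ) : ZMod 2) = 0 := by decide
      rw [this, zero_mul]
    rw [← h4, ← h3]
    rw [zsmul_eq_mul]
    have h6 : ∀ a b e : ZMod 2, a + b + -e = a - e + b := fun a b e => by ring
    rw [h6, ← Finset.sum_sub_distrib]
    rw [sub_eq_add_neg (∑ i ∈ Finset.range n, _) (((g n - g' n : ℤ) : ZMod 2) * _)]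
    congr 1
    · refine Finset.sum_congr rfl fun i _ => ?_
      push_cast; ring
    · push_cast; ring
  have h3 := (key.1 e2).1
  rw [e1, mem_GG h] at h3
  exact h3

end Pool.Agent.CSW
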