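import Pool.Agent.CSW.Alg

/-!
# Theorem A for subgroups of the free group on `x`, `y`

`true` is `x`, `false` is `y`.  `s0 : x ↦ x, y ↦ x y`.  A subgroup `Γ` of `F2` with the properties `WIn`
contains the quotient of two words `x^{e 0} y x^{e 1} y ...` as soon as the sum over the odd rows of the
differences of the gaps is even (`gap`).
-/

namespace Pool.Agent.CSW

abbrev F2 := FreeGroup Bool

def fx : F2 := FreeGroup.of true
def fy : F2 := FreeGroup.of false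

def s0 : F2 →* F2 := FreeGroup.lift fun b => if b then fx else fx * fy
def s0' : F2 →* F2 := FreeGroup.lift fun b => if b then fx else fx⁻¹ * fy

@[simp] theorem s0_x : s0 fx = fx := by simp [s0, fx]
@[simp] theorem s0_y : s0 fy = fx * fy := by simp [s0, fy]
@[simp] theorem s0'_x : s0' fx = fx := by simp [s0', fx]
@[simp] theorem s0'_y : s0' fy = fx⁻¹ * fy := by simp [s0', fy]

theorem s0_s0' (g : F2) : s0 (s0' g) = g := by
  have : s0.comp s0' = MonoidHom.id F2 := by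
    refine FreeGroup.ext_hom _ _ fun b => ?_
    cases b
    · show s0 (s0' fy) = fy
      simp
    · show s0 (s0' fx) = fx
      simp
  exact DFunLike.congr_fun this g

theorem s0'_s0 (g : F2) : s0' (s0 g) = g := by
  have : s0'.comp s0 = MonoidHom.id F2 := by
    refine FreeGroup.ext_hom _ _ fun b => ?_
    cases b
    · show s0' (s0 fy) = fy
      simp
    · show s0' (s0 fx) = fx
      simp
  exact DFunLike.congr_fun this g

/-- The inputs, at the level of words. -/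
structure WIn (Γ : Subgroup F2) : Prop where
  shear : ∀ g, g ∈ Γ → s0 g ∈ Γ
  shear' : ∀ g, g ∈ Γ → s0' g ∈ Γ
  x : fx ∈ Γ
  four : ∀ g, g * (fx⁻¹ * fy * fx * fy⁻¹) ^ 2 * g⁻¹ ∈ Γ
  b1 : ∀ r, 1 ≤ r → fy ^ (r - 1) * fx⁻¹ * fy ^ r * fx⁻¹ * fy *
    (fy ^ (r - 1) * fx⁻¹ * fy ^ r * fy * fx⁻¹)⁻¹ ∈ Γ
  b2e : ∀ r, 2 ≤ r → Even r → s0 (fy ^ (r - 1) * fx⁻¹ * fy ^ r) * fx *
    (fy ^ (r - 1) * fx⁻¹ * fy ^ r)⁻¹ ∈ Γ
  b2o : ∀ r, 1 ≤ r → Odd r → s0 (fy ^ r * fx⁻¹ * fy ^ (r - 1)) * fx *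
    (fy ^ (r - 1) * fx⁻¹ * fy ^ r)⁻¹ ∈ Γ
  b2o' : ∀ r, 1 ≤ r → Odd r → s0 (fy ^ (r - 1) * fx⁻¹ * fy ^ r) * fx *
    (fy ^ r * fx⁻¹ * fy ^ (r - 1))⁻¹ ∈ Γ

/-- the shear as an automorphism -/
def s0e : MulAut F2 := { s0 with invFun := s0', left_inv := s0'_s0, right_inv := s0_s0' }

/-- `F2 ⋊ ⟨s0⟩` -/
abbrev G2 := F2 ⋊[zpowersHom (MulAut F2) s0e] Multiplicative ℤ

/-- the embedding of `F2` -/
def il : F2 →* G2 := SemidirectProduct.inl
/-- the element `s0` -/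
def tt : G2 := SemidirectProduct.inr (Multiplicative.ofAdd (1 : ℤ))

theorem tt_mul (g : F2) : tt * il g = il (s0 g) * tt := by
  have := SemidirectProduct.inl_aut (φ := zpowersHom (MulAut F2) s0e) (Multiplicative.ofAdd (1 : ℤ)) g
  have h1 : (zpowersHom (MulAut F2) s0e) (Multiplicative.ofAdd (1 : ℤ)) g = s0 g := by
    simp [s0e]
  rw [h1] at this
  show tt * il g = il (s0 g) * tt
  have h2 : il (s0 g) = tt * il g * tt⁻¹ := by
    show SemidirectProduct.inl (s0 g) = _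
    rw [this]
    simp [tt, il]
  rw [h2]; group

/-- the subgroup of `G2` -/
def GG (Γ : Subgroup F2) (hs : ∀ g, g ∈ Γ → s0 g ∈ Γ) (hs' : ∀ g, g ∈ Γ → s0' g ∈ Γ) :
    Subgroup G2 where
  carrier := {g | g.left ∈ Γ}
  one_mem' := by simp
  mul_mem' := by
    intro a b ha hb
    have key : ∀ (k : ℤ) (g : F2), g ∈ Γ → ((s0e : MulAut F2) ^ k) g ∈ Γ := by
      intro k
      induction k using Int.induction_on with
      | zero => intro g hg; simpa using hg
      | succ k ih =>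
        intro g hg
        rw [zpow_add, zpow_one]
        exact ih _ (hs g hg)
      | pred k ih =>
        intro g hg
        rw [zpow_sub, zpow_one]
        exact ih _ (hs' g hg)
    simp only [Set.mem_ofPred_eq, SemidirectProduct.mul_left]
    exact Γ.mul_mem ha (key _ _ hb)
  inv_mem' := by
    intro a ha
    have key : ∀ (k : ℤ) (g : F2), g ∈ Γ → ((s0e : MulAut F2) ^ k) g ∈ Γ := by
      intro k
      induction k using Int.induction_on with
      | zero => intro g hg; simpa using hg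
      | succ k ih =>
        intro g hg
        rw [zpow_add, zpow_one]
        exact ih _ (hs g hg)
      | pred k ih =>
        intro g hg
        rw [zpow_sub, zpow_one]
        exact ih _ (hs' g hg)
    simp only [Set.mem_ofPred_eq, SemidirectProduct.inv_left]
    exact key _ _ (Γ.inv_mem ha)

section
variable {Γ : Subgroup F2} (h : WIn Γ)

include h in
theorem mem_GG {g : F2} : il g ∈ GG Γ h.shear h.shear' ↔ g ∈ Γ := Iff.rfl

include h in
theorem tt_mem : tt ∈ GG Γ h.shear h.shear' := by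
  show (tt : G2).left ∈ Γ
  simp [tt]

/-- `s n = y^n s0 y^{-n}` -/
def sn (n : ℕ) : G2 := il (fy ^ n) * tt * il (fy ^ n)⁻¹
/-- `a n = y^n x y^{-n}` -/
def an (n : ℕ) : F2 := fy ^ n * fx * (fy ^ n)⁻¹

theorem sn_zero : sn 0 = tt := by simp [sn]

theorem sn_succ (n : ℕ) : sn (n + 1) = il (an n)⁻¹ * sn n := by
  have h1 : il fy * tt = il fx⁻¹ * tt * il fy := by
    have := tt_mul fy
    rw [s0_y] at this
    rw [mul_assoc, this, map_mul, map_inv]; group
  have h2 : il (fy ^ (n + 1)) = il (fy ^ n) * il fy := by rw [pow_succ, map_mul]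
  simp only [sn, an]
  calc il (fy ^ (n + 1)) * tt * il (fy ^ (n + 1))⁻¹
      = il (fy ^ n) * (il fy * tt) * (il fy)⁻¹ * (il (fy ^ n))⁻¹ := by
        rw [map_inv, h2]; group
    _ = il (fy ^ n) * (il fx⁻¹ * tt * il fy) * (il fy)⁻¹ * (il (fy ^ n))⁻¹ := by rw [h1]
    _ = _ := by simp only [map_mul, map_inv]; group

theorem an_comm (n : ℕ) : il (an n) * sn n = sn n * il (an n) := by
  have h1 : tt * il fx = il fx * tt := by simpa using tt_mul fx
  simp only [sn, an, map_mul, map_inv]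
  calc il (fy ^ n) * il fx * (il (fy ^ n))⁻¹ * (il (fy ^ n) * tt * (il (fy ^ n))⁻¹)
      = il (fy ^ n) * (il fx * tt) * (il (fy ^ n))⁻¹ := by group
    _ = il (fy ^ n) * (tt * il fx) * (il (fy ^ n))⁻¹ := by rw [h1]
    _ = _ := by group

theorem sn_succ' (n : ℕ) : sn (n + 1) = sn n * il (an n)⁻¹ := by
  rw [sn_succ, map_inv, inv_mul_eq_iff_eq_mul, ← mul_assoc, an_comm]; group

theorem T_sn (n : ℕ) : T sn (n + 1) = il ((an n)⁻¹ * an (n + 1)) := by
  have h1 : sn (n + 1 + 1) = sn (n + 1) * il (an (n + 1))⁻¹ := sn_succ' (n + 1)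
  have h2 : sn (n + 1) = sn n * il (an n)⁻¹ := sn_succ' n
  have h3 := an_comm (n + 1)
  simp only [T, Nat.add_sub_cancel]
  rw [h1]
  calc (sn (n + 1) * il (an (n + 1))⁻¹ * sn n)⁻¹ * sn (n + 1) ^ 2
      = (sn n)⁻¹ * (il (an (n + 1)) * sn (n + 1)) := by
        rw [map_inv, pow_two]; group
    _ = (sn n)⁻¹ * (sn (n + 1) * il (an (n + 1))) := by rw [h3]
    _ = (sn n)⁻¹ * ((sn n * il (an n)⁻¹) * il (an (n + 1))) := by rw [← h2]
    _ = _ := by rw [map_mul]; group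

theorem gg_sn (n : ℕ) : gg sn (n + 1) = il (an n)⁻¹ := by
  simp only [gg, Nat.add_sub_cancel, sn_succ']; group

theorem il_tt_mem (f : F2) : il f * tt ∈ GG Γ h.shear h.shear' ↔ f ∈ Γ := by
  rw [Subgroup.mul_mem_cancel_right _ (tt_mem h)]; exact mem_GG h

/-- `f t g⁻¹` -/
theorem conj_mem (f g : F2) : il f * tt * (il g)⁻¹ ∈ GG Γ h.shear h.shear' ↔
    s0 g * f⁻¹ ∈ Γ := by
  have h1 : tt * (il g)⁻¹ = il (s0 g)⁻¹ * tt := by
    rw [← map_inv, tt_mul, map_inv]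
  rw [mul_assoc, h1, ← mul_assoc, ← map_mul, il_tt_mem h]
  rw [← Γ.inv_mem_iff]
  simp [mul_inv_rev]

theorem pow_s0e {Q : F2 → Prop} (h1 : ∀ g, Q g → Q (s0 g)) (h2 : ∀ g, Q g → Q (s0' g)) (k : ℤ) :
    ∀ g : F2, Q g → Q (((s0e : MulAut F2) ^ k) g) := by
  induction k using Int.induction_on with
  | zero => intro g hg; simpa using hg
  | succ k ih =>
    intro g hg
    rw [zpow_add, zpow_one]
    exact ih _ (h1 g hg)
  | pred k ih =>
    intro g hg
    rw [zpow_sub, zpow_one]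
    exact ih _ (h2 g hg)

include h in
theorem conj_il_mem {u : F2} (hu : ∀ f : F2, f * u * f⁻¹ ∈ Γ) (g : G2) :
    g * il u * g⁻¹ ∈ GG Γ h.shear h.shear' := by
  show (g * il u * g⁻¹).left ∈ Γ
  have h1 : (g * il u * g⁻¹).left =
      g.left * (((s0e : MulAut F2) ^ (Multiplicative.toAdd g.right)) u) * g.left⁻¹ := by
    simp only [SemidirectProduct.mul_left, SemidirectProduct.inv_left, il,
      SemidirectProduct.left_inl, SemidirectProduct.mul_right, SemidirectProduct.right_inl, mul_one]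
    rw [← MulAut.mul_apply, ← map_mul, mul_inv_cancel, map_one, MulAut.one_apply]
    rfl
  rw [h1]
  have key := pow_s0e (Q := fun u => ∀ f : F2, f * u * f⁻¹ ∈ Γ) ?_ ?_
    (Multiplicative.toAdd g.right) u hu
  · exact key _
  · intro u hu f
    have := h.shear _ (hu (s0' f))
    rwa [map_mul, map_mul, map_inv, s0_s0'] at this
  · intro u hu f
    have := h.shear' _ (hu (s0 f))
    rwa [map_mul, map_mul, map_inv, s0'_s0] at this

theorem an_pred (r : ℕ) (hr : 1 ≤ r) : (an (r - 1))⁻¹ * fy ^ (2 * r) =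
    fy ^ (r - 1) * fx⁻¹ * fy ^ r * fy := by
  obtain ⟨m, rfl⟩ : ∃ m, r = m + 1 := ⟨r - 1, by omega⟩
  simp only [an, Nat.add_sub_cancel]
  have : fy ^ (2 * (m + 1)) = fy ^ m * fy ^ (m + 1) * fy := by
    rw [← pow_add, ← pow_succ]; congr 1; omega
  rw [this]; group

include h in
theorem input : Input sn (GG Γ h.shear h.shear') where
  comm n := by
    have h1 : Commute (sn n) (il (an n)) := (an_comm n).symm
    have h2 : Commute (sn n) ((il (an n))⁻¹ * sn n) := h1.inv_right.mul_right (Commute.refl _)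
    rw [sn_succ, map_inv]
    exact h2.eq
  four n hn g := by
    obtain ⟨m, rfl⟩ : ∃ m, n = m + 1 := ⟨n - 1, by omega⟩
    rw [T_sn, ← map_pow]
    refine conj_il_mem h (fun f => ?_) g
    have := h.four (f * fy ^ m)
    have e : f * ((an m)⁻¹ * an (m + 1)) ^ 2 * f⁻¹ =
        f * fy ^ m * (fx⁻¹ * fy * fx * fy⁻¹) ^ 2 * (f * fy ^ m)⁻¹ := by
      have e1 : (an m)⁻¹ * an (m + 1) = fy ^ m * (fx⁻¹ * fy * fx * fy⁻¹) * (fy ^ m)⁻¹ := by
        simp only [an, pow_succ]; group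
      rw [e1, pow_two, pow_two]; group
    rwa [e]
  s0 := by rw [sn_zero]; exact tt_mem h
  s1 := by
    rw [show (1 : ℕ) = 0 + 1 from rfl, sn_succ, sn_zero, il_tt_mem h]
    simpa [an] using Γ.inv_mem h.x
  b1 r hr := by
    obtain ⟨m, rfl⟩ : ∃ m, r = m + 1 := ⟨r - 1, by omega⟩
    have h1 := h.b1 (m + 1) hr
    rw [show 2 * (m + 1) = (2 * m + 1) + 1 by ring, T_sn, gg_sn, ← map_mul, ← map_inv, ← map_mul,
      mem_GG h]
    have e : (an m)⁻¹ * ((an (2 * m + 1))⁻¹ * an (2 * m + 1 + 1)) * ((an m)⁻¹)⁻¹ =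
        fy ^ (m + 1 - 1) * fx⁻¹ * fy ^ (m + 1) * fx⁻¹ * fy *
          (fy ^ (m + 1 - 1) * fx⁻¹ * fy ^ (m + 1) * fy * fx⁻¹)⁻¹ := by
      simp only [an, Nat.add_sub_cancel]
      have e1 : fy ^ (2 * m + 1) = fy ^ m * fy ^ (m + 1) := by rw [← pow_add]; congr 1; omega
      rw [pow_succ fy (2 * m + 1), e1]; group
    rwa [e]
  b2e r hr he := by
    have h1 := h.b2e r hr he
    obtain ⟨m, rfl⟩ : ∃ m, r = m + 1 := ⟨r - 1, by omega⟩
    have e : gg sn (m + 1) * sn (2 * (m + 1)) * (gg sn (m + 1))⁻¹ =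
        il ((an m)⁻¹ * fy ^ (2 * (m + 1))) * tt * (il ((an m)⁻¹ * fy ^ (2 * (m + 1))))⁻¹ := by
      rw [gg_sn, sn]; simp only [map_mul, map_inv]; group
    have e2 := an_pred (m + 1) (by omega)
    rw [Nat.add_sub_cancel] at e2
    rw [e, conj_mem h, e2]
    rw [Nat.add_sub_cancel] at h1
    have e3 : s0 (fy ^ m * fx⁻¹ * fy ^ (m + 1) * fy) * (fy ^ m * fx⁻¹ * fy ^ (m + 1) * fy)⁻¹ =
        s0 (fy ^ m * fx⁻¹ * fy ^ (m + 1)) * fx * (fy ^ m * fx⁻¹ * fy ^ (m + 1))⁻¹ := by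
      rw [map_mul s0 _ fy, s0_y]; group
    rwa [e3]
  b2o r hr he := by
    have h1 := h.b2o r hr he
    obtain ⟨m, rfl⟩ : ∃ m, r = m + 1 := ⟨r - 1, by omega⟩
    have e2 := an_pred (m + 1) (by omega)
    rw [Nat.add_sub_cancel] at e2
    have e : gg sn (m + 1) * sn (2 * (m + 1)) * (gg sn (m + 1))⁻¹ * T sn (m + 1) =
        il (fy ^ m * fx⁻¹ * fy ^ (m + 1) * fy) * tt * (il (fy ^ (m + 1) * fx⁻¹ * fy ^ m * fy))⁻¹ := by
      have e3 : fy ^ (m + 1) * fx⁻¹ * fy ^ m * fy = (an (m + 1))⁻¹ * fy ^ (2 * (m + 1)) := by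
        have : fy ^ (2 * (m + 1)) = fy ^ (m + 1) * fy ^ m * fy := by
          rw [← pow_add, ← pow_succ]; congr 1; omega
        rw [an, this]; group
      rw [← e2, e3, gg_sn, T_sn, sn]; simp only [map_mul, map_inv]; group
    rw [e, conj_mem h]
    rw [Nat.add_sub_cancel] at h1
    have e3 : s0 (fy ^ (m + 1) * fx⁻¹ * fy ^ m * fy) * (fy ^ m * fx⁻¹ * fy ^ (m + 1) * fy)⁻¹ =
        s0 (fy ^ (m + 1) * fx⁻¹ * fy ^ m) * fx * (fy ^ m * fx⁻¹ * fy ^ (m + 1))⁻¹ := by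
      rw [map_mul s0 _ fy, s0_y]; group
    rwa [e3]
  b2o' r hr he := by
    have h1 := h.b2o' r hr he
    obtain ⟨m, rfl⟩ : ∃ m, r = m + 1 := ⟨r - 1, by omega⟩
    have e2 := an_pred (m + 1) (by omega)
    rw [Nat.add_sub_cancel] at e2
    have e : (T sn (m + 1))⁻¹ * (gg sn (m + 1) * sn (2 * (m + 1)) * (gg sn (m + 1))⁻¹) =
        il (fy ^ (m + 1) * fx⁻¹ * fy ^ m * fy) * tt * (il (fy ^ m * fx⁻¹ * fy ^ (m + 1) * fy))⁻¹ := by
      have e3 : fy ^ (m + 1) * fx⁻¹ * fy ^ m * fy = (an (m + 1))⁻¹ * fy ^ (2 * (m + 1)) := by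
        have : fy ^ (2 * (m + 1)) = fy ^ (m + 1) * fy ^ m * fy := by
          rw [← pow_add, ← pow_succ]; congr 1; omega
        rw [an, this]; group
      rw [← e2, e3, gg_sn, T_sn, sn]; simp only [map_mul, map_inv]; group
    rw [e, conj_mem h]
    rw [Nat.add_sub_cancel] at h1
    have e3 : s0 (fy ^ m * fx⁻¹ * fy ^ (m + 1) * fy) * (fy ^ (m + 1) * fx⁻¹ * fy ^ m * fy)⁻¹ =
        s0 (fy ^ m * fx⁻¹ * fy ^ (m + 1)) * fx * (fy ^ (m + 1) * fx⁻¹ * fy ^ m)⁻¹ := by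
      rw [map_mul s0 _ fy, s0_y]; group
    rwa [e3]

end

end Pool.Agent.CSW
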