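import Mathlib

/-!
# The algebra of Theorem A

`G` is a group with elements `s 0, s 1, s 2, ...`, `[s n, s (n+1)] = 1`, `T n = (s (n+1) s (n-1))⁻¹ (s n)²`,
`Γ` a subgroup.  If `Γ` contains the geometric inputs of the structure `Input` then `Γ` contains
every word in the `s n` of even total degree in the letters `s n`, `n = 2 mod 4`.
(Variant of helper53's `csc_Alg`.)
-/

namespace Pool.Agent.CSW

variable {G : Type*} [Group G]

/-- The crossing change at height `n` (lantern relation). -/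
def T (s : ℕ → G) (n : ℕ) : G := (s (n + 1) * s (n - 1))⁻¹ * s n ^ 2

/-- `s_{r-1}⁻¹ s_r`. -/
def gg (s : ℕ → G) (r : ℕ) : G := (s (r - 1))⁻¹ * s r

/-- The geometric inputs. -/
structure Input (s : ℕ → G) (Γ : Subgroup G) : Prop where
  comm : ∀ n, s n * s (n + 1) = s (n + 1) * s n
  four : ∀ n, 1 ≤ n → ∀ g : G, g * T s n ^ 2 * g⁻¹ ∈ Γ
  s0 : s 0 ∈ Γ
  s1 : s 1 ∈ Γ
  b1 : ∀ r, 1 ≤ r → gg s r * T s (2 * r) * (gg s r)⁻¹ ∈ Γ
  b2e : ∀ r, 2 ≤ r → Even r → gg s r * s (2 * r) * (gg s r)⁻¹ ∈ Γ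
  b2o : ∀ r, 1 ≤ r → Odd r → gg s r * s (2 * r) * (gg s r)⁻¹ * T s r ∈ Γ
  b2o' : ∀ r, 1 ≤ r → Odd r → (T s r)⁻¹ * (gg s r * s (2 * r) * (gg s r)⁻¹) ∈ Γ

/-- `Γ ∩ a⁻¹ Γ a`, as a predicate. -/
def InP (Γ : Subgroup G) (a g : G) : Prop := g ∈ Γ ∧ a * g * a⁻¹ ∈ Γ

/-- the coset predicate: `g ∈ Γ'` or `g ∈ Γ' a`. -/
def M (Γ : Subgroup G) (a : G) (e : Bool) (g : G) : Prop :=
  if e then InP Γ a (g * a⁻¹) else InP Γ a g

section
variable {Γ : Subgroup G} {a : G}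

theorem InP.mul {g h : G} (hg : InP Γ a g) (hh : InP Γ a h) : InP Γ a (g * h) := by
  refine ⟨Γ.mul_mem hg.1 hh.1, ?_⟩
  have := Γ.mul_mem hg.2 hh.2
  have e : a * g * a⁻¹ * (a * h * a⁻¹) = a * (g * h) * a⁻¹ := by group
  rwa [e] at this

theorem InP.inv {g : G} (hg : InP Γ a g) : InP Γ a g⁻¹ := by
  refine ⟨Γ.inv_mem hg.1, ?_⟩
  have := Γ.inv_mem hg.2
  have e : (a * g * a⁻¹)⁻¹ = a * g⁻¹ * a⁻¹ := by group
  rwa [e] at this

theorem InP.one : InP Γ a 1 := ⟨Γ.one_mem, by simp⟩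

theorem inP_sq (ha : a ^ 2 ∈ Γ) : InP Γ a (a ^ 2) := by
  refine ⟨ha, ?_⟩
  have e : a * a ^ 2 * a⁻¹ = a ^ 2 := by group
  rwa [e]

theorem InP.conj (ha : a ^ 2 ∈ Γ) {g : G} (hg : InP Γ a g) : InP Γ a (a * g * a⁻¹) := by
  refine ⟨hg.2, ?_⟩
  have := Γ.mul_mem (Γ.mul_mem ha hg.1) (Γ.inv_mem ha)
  have e : a ^ 2 * g * (a ^ 2)⁻¹ = a * (a * g * a⁻¹) * a⁻¹ := by rw [pow_two]; group
  rwa [e] at this

theorem InP.conj' (ha : a ^ 2 ∈ Γ) {g : G} (hg : InP Γ a g) : InP Γ a (a⁻¹ * g * a) := by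
  have h := ((inP_sq ha).inv.mul (hg.conj ha)).mul (inP_sq ha)
  have e : (a ^ 2)⁻¹ * (a * g * a⁻¹) * a ^ 2 = a⁻¹ * g * a := by group
  rwa [e] at h

theorem M_false {g : G} : M Γ a false g ↔ InP Γ a g := by simp [M]

theorem M_true {g : G} : M Γ a true g ↔ InP Γ a (g * a⁻¹) := by simp [M]

theorem M.mul (ha : a ^ 2 ∈ Γ) {e f : Bool} {g h : G} (hg : M Γ a e g) (hh : M Γ a f h) :
    M Γ a (xor e f) (g * h) := by
  cases e <;> cases f
  · rw [M_false] at hg hh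
    exact M_false.2 (hg.mul hh)
  · rw [M_false] at hg; rw [M_true] at hh
    refine M_true.2 ?_
    have := hg.mul hh
    rwa [← mul_assoc] at this
  · rw [M_true] at hg; rw [M_false] at hh
    refine M_true.2 ?_
    have := hg.mul (hh.conj ha)
    have e : g * a⁻¹ * (a * h * a⁻¹) = g * h * a⁻¹ := by group
    rwa [e] at this
  · rw [M_true] at hg hh
    refine M_false.2 ?_
    have := (hg.mul (hh.conj ha)).mul (inP_sq ha)
    have e : g * a⁻¹ * (a * (h * a⁻¹) * a⁻¹) * a ^ 2 = g * h := by group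
    rwa [e] at this

theorem M.inv (ha : a ^ 2 ∈ Γ) {e : Bool} {g : G} (hg : M Γ a e g) : M Γ a e g⁻¹ := by
  cases e
  · exact M_false.2 (M_false.1 hg).inv
  · rw [M_true] at hg ⊢
    have := ((hg.inv).conj' ha).mul (inP_sq ha).inv
    have e : a⁻¹ * (g * a⁻¹)⁻¹ * a * (a ^ 2)⁻¹ = g⁻¹ * a⁻¹ := by group
    rwa [e] at this

theorem M.one : M Γ a false 1 := M_false.2 InP.one

theorem M.self : M Γ a true a := by
  refine M_true.2 ?_
  rw [mul_inv_cancel]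
  exact InP.one

/-- transport of a conjugate. -/
theorem of_conj_false {g x : G} (hg : M Γ a false g) (h : g * x * g⁻¹ ∈ Γ) : x ∈ Γ := by
  have h1 := (M_false.1 hg).1
  have := Γ.mul_mem (Γ.mul_mem (Γ.inv_mem h1) h) h1
  have e : g⁻¹ * (g * x * g⁻¹) * g = x := by group
  rwa [e] at this

theorem of_conj_true {g x : G} (hg : M Γ a true g) (h : g * x * g⁻¹ ∈ Γ) : a * x * a⁻¹ ∈ Γ := by
  have h1 := (M_true.1 hg).1
  have := Γ.mul_mem (Γ.mul_mem (Γ.inv_mem h1) h) h1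
  have e : (g * a⁻¹)⁻¹ * (g * x * g⁻¹) * (g * a⁻¹) = a * x * a⁻¹ := by group
  rwa [e] at this

/-- an element commuting with an element of the nontrivial coset. -/
theorem both {B x : G} (hB : M Γ a true B) (hc : B * x = x * B) (h : x ∈ Γ ∨ a * x * a⁻¹ ∈ Γ) :
    InP Γ a x := by
  have h1 := (M_true.1 hB).1
  have hx : B * x * B⁻¹ = x := by rw [hc]; group
  rcases h with h | h
  · refine ⟨h, ?_⟩
    have := of_conj_true hB (x := x) (by rwa [hx])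
    exact this
  · refine ⟨?_, h⟩
    have := Γ.mul_mem (Γ.mul_mem h1 h) (Γ.inv_mem h1)
    have e : B * a⁻¹ * (a * x * a⁻¹) * (B * a⁻¹)⁻¹ = B * x * B⁻¹ := by group
    rwa [e, hx] at this

end

/-- `n = 2 mod 4`. -/
def c (n : ℕ) : Bool := decide (n % 4 = 2)

theorem c_odd {n : ℕ} (h : n % 2 = 1) : c n = false := by
  simp only [c, decide_eq_false_iff_not]; omega

variable {s : ℕ → G} {Γ : Subgroup G}

theorem T_conj (h : Input s Γ) {n : ℕ} (hn : 1 ≤ n) :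
    s (n - 1) * T s n * (s (n - 1))⁻¹ = (s (n - 1) * s (n + 1))⁻¹ * s n ^ 2 := by
  obtain ⟨m, rfl⟩ : ∃ m, n = m + 1 := ⟨n - 1, by omega⟩
  have h0 : Commute (s (m + 1)) (s m) := (h.comm m).symm
  have h1 : Commute (s (m + 1) ^ 2) ((s m)⁻¹) := (h0.pow_left 2).inv_right
  simp only [T, Nat.add_sub_cancel, mul_inv_rev]
  calc s m * ((s m)⁻¹ * (s (m + 1 + 1))⁻¹ * s (m + 1) ^ 2) * (s m)⁻¹
      = (s (m + 1 + 1))⁻¹ * (s (m + 1) ^ 2 * (s m)⁻¹) := by group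
    _ = (s (m + 1 + 1))⁻¹ * ((s m)⁻¹ * s (m + 1) ^ 2) := by rw [h1.eq]
    _ = _ := by group

theorem T_sq (h : Input s Γ) {n : ℕ} (hn : 1 ≤ n) :
    s (n - 1) * T s n ^ 2 * (s (n - 1))⁻¹ = ((s (n - 1) * s (n + 1)) ^ 2)⁻¹ * s n ^ 4 := by
  have e : s (n - 1) * T s n ^ 2 * (s (n - 1))⁻¹ =
      (s (n - 1) * T s n * (s (n - 1))⁻¹) ^ 2 := by rw [pow_two, pow_two]; group
  rw [e, T_conj h hn]
  obtain ⟨m, rfl⟩ : ∃ m, n = m + 1 := ⟨n - 1, by omega⟩
  have h1 : Commute (s (m + 1)) (s m) := (h.comm m).symm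
  have h2 : Commute (s (m + 1)) (s (m + 2)) := h.comm (m + 1)
  have h3 : Commute ((s m * s (m + 2))⁻¹) (s (m + 1) ^ 2) :=
    ((h1.mul_right h2).pow_left 2).symm.inv_left
  simp only [Nat.add_sub_cancel]
  have h4 : s (m + 1 + 1) = s (m + 2) := rfl
  rw [h4, h3.mul_pow, inv_pow, ← pow_mul]

theorem Input.gg1 (h : Input s Γ) : gg s 1 ∈ Γ := by
  simpa [gg] using Γ.mul_mem (Γ.inv_mem h.s0) h.s1

theorem Input.t2 (h : Input s Γ) : T s 2 ∈ Γ := by
  have h1 := h.b1 1 le_rfl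
  have h2 := Γ.mul_mem (Γ.mul_mem (Γ.inv_mem h.gg1) h1) h.gg1
  have e : (gg s 1)⁻¹ * (gg s 1 * T s (2 * 1) * (gg s 1)⁻¹) * gg s 1 = T s 2 := by
    rw [show 2 * 1 = 2 from rfl]; group
  rwa [e] at h2

theorem Input.b1' (h : Input s Γ) {r : ℕ} (hr : 1 ≤ r) (ho : Odd r) :
    gg s r * s (2 * r) ^ 2 * (gg s r)⁻¹ ∈ Γ := by
  have h2 := Γ.mul_mem (h.b2o r hr ho) (h.b2o' r hr ho)
  have e : gg s r * s (2 * r) * (gg s r)⁻¹ * T s r * ((T s r)⁻¹ * (gg s r * s (2 * r) * (gg s r)⁻¹))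
      = gg s r * s (2 * r) ^ 2 * (gg s r)⁻¹ := by rw [pow_two]; group
  rwa [e] at h2

theorem Input.s2 (h : Input s Γ) : s 2 ^ 2 ∈ Γ := by
  have h1 := h.b1' le_rfl odd_one
  have h2 := Γ.mul_mem (Γ.mul_mem (Γ.inv_mem h.gg1) h1) h.gg1
  have e : (gg s 1)⁻¹ * (gg s 1 * s (2 * 1) ^ 2 * (gg s 1)⁻¹) * gg s 1 = s 2 ^ 2 := by
    rw [show 2 * 1 = 2 from rfl]; group
  rwa [e] at h2

theorem Input.sq (h : Input s Γ) {n : ℕ} (hn : 1 ≤ n) :
    ((s (n - 1) * s (n + 1)) ^ 2)⁻¹ * s n ^ 4 ∈ Γ := by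
  rw [← T_sq h hn]; exact h.four n hn _

/-- the statement of the induction. -/
structure Q (s : ℕ → G) (Γ : Subgroup G) (r : ℕ) : Prop where
  low : ∀ n, n ≤ 2 * r - 2 → M Γ (s 2) (c n) (s n)
  ev : r % 2 = 0 → InP Γ (s 2) (s (2 * r - 1))
  one : s (2 * r - 1) ∈ Γ ∨ s 2 * s (2 * r - 1) * (s 2)⁻¹ ∈ Γ

theorem q_two (h : Input s Γ) : Q s Γ 2 := by
  have hs1 : InP Γ (s 2) (s 1) := by
    refine ⟨h.s1, ?_⟩
    have : s 2 * s 1 * (s 2)⁻¹ = s 1 := by rw [← h.comm 1]; group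
    rw [this]; exact h.s1
  have hs0 : InP Γ (s 2) (s 0) := by
    refine ⟨h.s0, ?_⟩
    have h1 := h.sq le_rfl
    have h2 := Γ.mul_mem h1 (Γ.inv_mem (Γ.pow_mem h.s1 4))
    have h3 := Γ.inv_mem h2
    have e1 : (((s (1 - 1) * s (1 + 1)) ^ 2)⁻¹ * s 1 ^ 4 * (s 1 ^ 4)⁻¹)⁻¹ = (s 0 * s 2) ^ 2 := by
      simp
    rw [e1] at h3
    have h4 := Γ.mul_mem (Γ.mul_mem (Γ.inv_mem h.s0) h3) (Γ.inv_mem h.s2)
    have e2 : (s 0)⁻¹ * (s 0 * s 2) ^ 2 * (s 2 ^ 2)⁻¹ = s 2 * s 0 * (s 2)⁻¹ := by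
      rw [pow_two, pow_two]; group
    rwa [e2] at h4
  have hs3 : InP Γ (s 2) (s 3) := by
    refine both (M.self) (h.comm 2) (Or.inl ?_)
    have h1 := h.t2
    simp only [T] at h1
    have h2 := Γ.mul_mem h.s2 (Γ.inv_mem h1)
    have h3 := Γ.mul_mem h2 (Γ.inv_mem h.s1)
    have e : s 2 ^ 2 * ((s (2 + 1) * s (2 - 1))⁻¹ * s 2 ^ 2)⁻¹ * (s 1)⁻¹ = s 3 := by
      have : s (2 - 1) = s 1 := rfl
      rw [this]; have : s (2 + 1) = s 3 := rfl
      rw [this]; group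
    rwa [e] at h3
  refine ⟨?_, fun _ => hs3, Or.inl hs3.1⟩
  intro n hn
  have : n = 0 ∨ n = 1 ∨ n = 2 := by omega
  rcases this with rfl | rfl | rfl
  · exact M_false.2 hs0
  · exact M_false.2 hs1
  · exact M.self

theorem q_even (h : Input s Γ) {r : ℕ} (hr : 2 ≤ r) (he : r % 2 = 0) (q : Q s Γ r) :
    Q s Γ (r + 1) := by
  have ha := h.s2
  have h1 : InP Γ (s 2) (s (2 * r - 1)) := q.ev he
  have hg : M Γ (s 2) (c r) (gg s r) := by
    have h1 : M Γ (s 2) false (s (r - 1)) := by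
      have := q.low (r - 1) (by omega)
      rwa [c_odd (by omega)] at this
    have h2 := q.low r (by omega)
    have := (h1.inv ha).mul ha h2
    simpa [gg] using this
  have hsq : (s (2 * r - 2) * s (2 * r)) ^ 2 ∈ Γ := by
    have h2 := h.sq (n := 2 * r - 1) (by omega)
    have e1 : 2 * r - 1 - 1 = 2 * r - 2 := by omega
    have e2 : 2 * r - 1 + 1 = 2 * r := by omega
    rw [e1, e2] at h2
    have h3 := Γ.mul_mem h2 (Γ.inv_mem (Γ.pow_mem h1.1 4))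
    have h4 := Γ.inv_mem h3
    simpa using h4
  have hb : M Γ (s 2) true (s (2 * r - 2)) := by
    have := q.low (2 * r - 2) le_rfl
    have hc : c (2 * r - 2) = true := by simp only [c, decide_eq_true_eq]; omega
    rwa [hc] at this
  have hbt := M_true.1 hb
  have hB := h.b2e r hr (Nat.even_iff.2 he)
  -- the equivalence of the two memberships
  have hiff : s (2 * r) ∈ Γ ↔ s 2 * s (2 * r) * (s 2)⁻¹ ∈ Γ := by
    set B := s (2 * r)
    set b := s (2 * r - 2)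
    set a := s 2
    -- (b B)^2 = (b a⁻¹) (a B a⁻¹) (a (b a⁻¹) a⁻¹) a^2 B
    have e : (b * B) ^ 2 = (b * a⁻¹) * (a * B * a⁻¹) * (a * (b * a⁻¹) * a⁻¹) * a ^ 2 * B := by
      rw [pow_two, pow_two]; group
    constructor
    · intro hx
      have h5 := Γ.mul_mem (Γ.mul_mem (Γ.inv_mem hbt.1) hsq)
        (Γ.inv_mem (Γ.mul_mem (Γ.mul_mem hbt.2 ha) hx))
      have e3 : (b * a⁻¹)⁻¹ * (b * B) ^ 2 * (a * (b * a⁻¹) * a⁻¹ * a ^ 2 * B)⁻¹ = a * B * a⁻¹ := by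
        rw [e]; group
      rwa [e3] at h5
    · intro hx
      have h5 := Γ.mul_mem (Γ.inv_mem (Γ.mul_mem (Γ.mul_mem (Γ.mul_mem hbt.1 hx) hbt.2) ha)) hsq
      have e3 : (b * a⁻¹ * (a * B * a⁻¹) * (a * (b * a⁻¹) * a⁻¹) * a ^ 2)⁻¹ * (b * B) ^ 2 = B := by
        rw [e]; group
      rwa [e3] at h5
  have hBP : InP Γ (s 2) (s (2 * r)) := by
    cases hcr : c r
    · rw [hcr] at hg
      have := of_conj_false hg hB
      exact ⟨this, hiff.1 this⟩
    · rw [hcr] at hg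
      have := of_conj_true hg hB
      exact ⟨hiff.2 this, this⟩
  have hone : s (2 * (r + 1) - 1) ∈ Γ ∨ s 2 * s (2 * (r + 1) - 1) * (s 2)⁻¹ ∈ Γ := by
    have e0 : 2 * (r + 1) - 1 = 2 * r + 1 := by omega
    rw [e0]
    have hT := h.b1 r (by omega)
    cases hcr : c r
    · left
      rw [hcr] at hg
      have h2 := of_conj_false hg hT
      have h3 := Γ.mul_mem (Γ.mul_mem (Γ.pow_mem hBP.1 2) (Γ.inv_mem h2)) (Γ.inv_mem h1.1)
      have e : s (2 * r) ^ 2 * (T s (2 * r))⁻¹ * (s (2 * r - 1))⁻¹ = s (2 * r + 1) := by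
        simp only [T]; group
      rwa [e] at h3
    · right
      rw [hcr] at hg
      have h2 := of_conj_true hg hT
      have h3 := Γ.mul_mem (Γ.mul_mem (Γ.pow_mem hBP.2 2) (Γ.inv_mem h2)) (Γ.inv_mem h1.2)
      have e : (s 2 * s (2 * r) * (s 2)⁻¹) ^ 2 *
          (s 2 * T s (2 * r) * (s 2)⁻¹)⁻¹ * (s 2 * s (2 * r - 1) * (s 2)⁻¹)⁻¹ =
          s 2 * s (2 * r + 1) * (s 2)⁻¹ := by
        simp only [T, pow_two]; group
      rwa [e] at h3
  refine ⟨?_, fun h' => by omega, hone⟩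
  intro n hn
  by_cases h3 : n ≤ 2 * r - 2
  · exact q.low n h3
  have : n = 2 * r - 1 ∨ n = 2 * r := by omega
  rcases this with rfl | rfl
  · rw [c_odd (by omega)]
    exact M_false.2 h1
  · have hc : c (2 * r) = false := by simp only [c, decide_eq_false_iff_not]; omega
    rw [hc]
    exact M_false.2 hBP

theorem q_odd (h : Input s Γ) {r : ℕ} (hr : 3 ≤ r) (he : r % 2 = 1) (q : Q s Γ r) :
    Q s Γ (r + 1) := by
  have ha := h.s2
  have hrr : M Γ (s 2) false (s r) := by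
    have := q.low r (by omega)
    rwa [c_odd he] at this
  have hg : M Γ (s 2) (c (r - 1)) (gg s r) := by
    have h1 := q.low (r - 1) (by omega)
    have := (h1.inv ha).mul ha hrr
    simpa [gg] using this
  have hTr : M Γ (s 2) true (T s r) := by
    have h1 := q.low (r - 1) (by omega)
    have h2 := q.low (r + 1) (by omega)
    have h3 := (((h2.mul ha h1).inv ha).mul ha (hrr.mul ha hrr))
    have hc : xor (xor (c (r + 1)) (c (r - 1))) (xor false false) = true := by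
      have : (r - 1) % 4 = 2 ∧ (r + 1) % 4 = 0 ∨ (r - 1) % 4 = 0 ∧ (r + 1) % 4 = 2 := by omega
      rcases this with ⟨h4, h5⟩ | ⟨h4, h5⟩ <;> simp [c, h4, h5]
    rw [hc] at h3
    simpa [T, pow_two] using h3
  obtain ⟨e, he1, he2⟩ : ∃ e, M Γ (s 2) true e ∧ gg s r * s (2 * r) * (gg s r)⁻¹ * e⁻¹ ∈ Γ := by
    refine ⟨(T s r)⁻¹, hTr.inv ha, ?_⟩
    have := h.b2o r (by omega) (Nat.odd_iff.2 he)
    rwa [inv_inv]
  have hsq := h.b1' (r := r) (by omega) (Nat.odd_iff.2 he)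
  have hBM : M Γ (s 2) true (s (2 * r)) := by
    refine M_true.2 ?_
    cases hcr : c (r - 1)
    · rw [hcr] at hg
      have hgΓ := (M_false.1 hg).1
      have h1 : s (2 * r) * (s 2)⁻¹ ∈ Γ := by
        have h2 := (M_true.1 (he1.mul ha hg)).1
        have h3 := Γ.mul_mem (Γ.mul_mem (Γ.inv_mem hgΓ) he2) h2
        have e4 : (gg s r)⁻¹ * (gg s r * s (2 * r) * (gg s r)⁻¹ * e⁻¹) *
          (e * gg s r * (s 2)⁻¹) = s (2 * r) * (s 2)⁻¹ := by group
        rwa [e4] at h3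
      refine ⟨h1, ?_⟩
      have h2 := of_conj_false hg hsq
      have h3 := Γ.mul_mem (Γ.mul_mem (Γ.inv_mem h1) h2) (Γ.inv_mem ha)
      have e4 : (s (2 * r) * (s 2)⁻¹)⁻¹ * s (2 * r) ^ 2 * (s 2 ^ 2)⁻¹ =
          s 2 * (s (2 * r) * (s 2)⁻¹) * (s 2)⁻¹ := by
        rw [pow_two, pow_two]; group
      rwa [e4] at h3
    · rw [hcr] at hg
      have hgt := M_true.1 hg
      have h1 : s 2 * s (2 * r) ∈ Γ := by
        -- e * (g a⁻¹) is in the nontrivial coset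
        have h2 := (M_true.1 (he1.mul ha (M_false.2 hgt))).1
        have h3 := Γ.mul_mem (Γ.mul_mem (Γ.mul_mem (Γ.inv_mem hgt.1) he2) h2) ha
        have e4 : (gg s r * (s 2)⁻¹)⁻¹ * (gg s r * s (2 * r) * (gg s r)⁻¹ * e⁻¹) *
          (e * (gg s r * (s 2)⁻¹) * (s 2)⁻¹) * s 2 ^ 2 = s 2 * s (2 * r) := by
          rw [pow_two]; group
        rwa [e4] at h3
      have h2 := of_conj_true hg hsq
      have h3 := Γ.mul_mem (Γ.inv_mem h1) h2
      have e4 : (s 2 * s (2 * r))⁻¹ * (s 2 * s (2 * r) ^ 2 * (s 2)⁻¹) = s (2 * r) * (s 2)⁻¹ := by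
        rw [pow_two]; group
      rw [e4] at h3
      refine ⟨h3, ?_⟩
      have h5 := Γ.mul_mem h1 (Γ.inv_mem ha)
      have e5 : s 2 * s (2 * r) * (s 2 ^ 2)⁻¹ = s 2 * (s (2 * r) * (s 2)⁻¹) * (s 2)⁻¹ := by
        rw [pow_two]; group
      rwa [e5] at h5
  have h1 : InP Γ (s 2) (s (2 * r - 1)) := by
    refine both hBM ?_ q.one
    have := h.comm (2 * r - 1)
    have e0 : 2 * r - 1 + 1 = 2 * r := by omega
    rw [e0] at this
    exact this.symm
  have h2 : InP Γ (s 2) (s (2 * r + 1)) := by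
    refine both hBM (h.comm (2 * r)) ?_
    have hBB : InP Γ (s 2) (s (2 * r) * s (2 * r)) := M_false.1 (hBM.mul ha hBM)
    have hT := h.b1 r (by omega)
    cases hcr : c (r - 1)
    · left
      rw [hcr] at hg
      have h2 := of_conj_false hg hT
      have h3 := Γ.mul_mem (Γ.mul_mem hBB.1 (Γ.inv_mem h2)) (Γ.inv_mem h1.1)
      have e : s (2 * r) * s (2 * r) * (T s (2 * r))⁻¹ * (s (2 * r - 1))⁻¹ = s (2 * r + 1) := by
        simp only [T, pow_two]; group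
      rwa [e] at h3
    · right
      rw [hcr] at hg
      have h2 := of_conj_true hg hT
      have h3 := Γ.mul_mem (Γ.mul_mem hBB.2 (Γ.inv_mem h2)) (Γ.inv_mem h1.2)
      have e : s 2 * (s (2 * r) * s (2 * r)) * (s 2)⁻¹ *
          (s 2 * T s (2 * r) * (s 2)⁻¹)⁻¹ * (s 2 * s (2 * r - 1) * (s 2)⁻¹)⁻¹ =
          s 2 * s (2 * r + 1) * (s 2)⁻¹ := by
        simp only [T, pow_two]; group
      rwa [e] at h3
  have e0 : 2 * (r + 1) - 1 = 2 * r + 1 := by omega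
  refine ⟨?_, fun _ => by rw [e0]; exact h2, Or.inl (by rw [e0]; exact h2.1)⟩
  intro n hn
  by_cases h3 : n ≤ 2 * r - 2
  · exact q.low n h3
  have : n = 2 * r - 1 ∨ n = 2 * r := by omega
  rcases this with rfl | rfl
  · rw [c_odd (by omega)]
    exact M_false.2 h1
  · have hc : c (2 * r) = true := by simp only [c, decide_eq_true_eq]; omega
    rw [hc]
    exact hBM

theorem q_all (h : Input s Γ) : ∀ r, 2 ≤ r → Q s Γ r := by
  intro r hr
  induction r, hr using Nat.le_induction with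
  | base => exact q_two h
  | succ r hr ih =>
    rcases Nat.mod_two_eq_zero_or_one r with he | he
    · exact q_even h hr he ih
    · exact q_odd h (by omega) he ih

theorem m_all (h : Input s Γ) (n : ℕ) : M Γ (s 2) (c n) (s n) :=
  (q_all h (n + 2) (by omega)).low n (by omega)

/-- the character of the words. -/
noncomputable def chi : FreeGroup ℕ →* Multiplicative (ZMod 2) :=
  FreeGroup.lift fun n => Multiplicative.ofAdd (if c n then 1 else 0)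

/-- **Theorem A**: every word in `s 0, s 1, ...` with `chi = 0` is in `Γ`; moreover the words with `chi = 0`
are in `Γ ∩ a⁻¹ Γ a`, `a = s 2`, and those with `chi = 1` are in `Γ a`. -/
theorem theoremA (h : Input s Γ) (w : FreeGroup ℕ) :
    (chi w = 1 → FreeGroup.lift s w ∈ Γ ∧ s 2 * FreeGroup.lift s w * (s 2)⁻¹ ∈ Γ) ∧
    (chi w ≠ 1 → FreeGroup.lift s w * (s 2)⁻¹ ∈ Γ ∧ s 2 * FreeGroup.lift s w ∈ Γ) := by
  have ha := h.s2
  have key : ∀ w : FreeGroup ℕ, ∃ e : Bool, M Γ (s 2) e (FreeGroup.lift s w) ∧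
      chi w = Multiplicative.ofAdd (if e then (1 : ZMod 2) else 0) := by
    intro w
    induction w using FreeGroup.induction_on with
    | C1 => exact ⟨false, by rw [map_one]; exact M.one, by rw [map_one]; rfl⟩
    | of n => exact ⟨c n, by simpa using m_all h n, by simp [chi]⟩
    | inv_of n _ =>
      refine ⟨c n, by simpa using (m_all h n).inv ha, ?_⟩
      rw [map_inv]
      simp only [chi, FreeGroup.lift_apply_of]
      cases c n <;> rfl
    | mul x y hx hy =>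
      obtain ⟨e, h1, h2⟩ := hx
      obtain ⟨f, h3, h4⟩ := hy
      refine ⟨xor e f, by rw [map_mul]; exact h1.mul ha h3, ?_⟩
      rw [map_mul, h2, h4]
      cases e <;> cases f <;> rfl
  obtain ⟨e, h1, h2⟩ := key w
  cases e
  · refine ⟨fun _ => M_false.1 h1, fun h3 => absurd ?_ h3⟩
    rw [h2]; rfl
  · refine ⟨fun h3 => absurd ?_ (show Multiplicative.ofAdd (1 : ZMod 2) ≠ 1 by decide), fun _ => ?_⟩
    · rw [h2] at h3; simp at h3
    · have h4 := M_true.1 h1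
      refine ⟨h4.1, ?_⟩
      have h5 := Γ.mul_mem h4.2 ha
      have e5 : s 2 * (FreeGroup.lift s w * (s 2)⁻¹) * (s 2)⁻¹ * s 2 ^ 2 =
          s 2 * FreeGroup.lift s w := by rw [pow_two]; group
      rwa [e5] at h5

end Pool.Agent.CSW
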