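import Mathlib

/-!
# Young diagrams: the combinatorics of the final argument

`k j` (`1 ≤ j ≤ N`) is the length of the row `j` of a Young diagram in `[1, N] × [1, M]`; `L j i` says that the cell
`(j, i)` is an obstacle.  `n1` is the number of obstacles of the diagram in the odd rows, `n2` in the odd columns.
-/

namespace Pool.Agent.CSW

/-- `k` is a Young diagram in `[1, N] × [1, M]` -/
structure YD (N M : ℕ) (k : ℕ → ℕ) : Prop where
  anti : ∀ i j, 1 ≤ i → i ≤ j → j ≤ N → k j ≤ k i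
  bd : ∀ j, 1 ≤ j → j ≤ N → k j ≤ M

open Classical in
/-- number of obstacles of the row `j` below the level `m` -/
noncomputable def cnt (L : ℕ → ℕ → Prop) (j m : ℕ) : ℕ := ((Finset.Icc 1 m).filter (fun i => L j i)).card

open Classical in
/-- number of obstacles of the diagram in the odd rows -/
noncomputable def n1 (L : ℕ → ℕ → Prop) (N : ℕ) (k : ℕ → ℕ) : ℕ :=
  ∑ j ∈ (Finset.Icc 1 N).filter (fun j => j % 2 = 1), cnt L j (k j)

/-- the transposed diagram -/
def trp (N : ℕ) (k : ℕ → ℕ) (i : ℕ) : ℕ := ((Finset.Icc 1 N).filter (fun j => i ≤ k j)).card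

theorem mem_trp {N M : ℕ} {k : ℕ → ℕ} (h : YD N M k) {i j : ℕ} (hj : 1 ≤ j) (hjN : j ≤ N) :
    j ≤ trp N k i ↔ i ≤ k j := by
  have key : (Finset.Icc 1 N).filter (fun j => i ≤ k j) = Finset.Icc 1 (trp N k i) := by
    -- the filter is an initial segment
    have hi : ∀ a ∈ (Finset.Icc 1 N).filter (fun j => i ≤ k j), ∀ b, 1 ≤ b → b ≤ a →
        b ∈ (Finset.Icc 1 N).filter (fun j => i ≤ k j) := by
      intro a ha b hb hba
      rw [Finset.mem_filter, Finset.mem_Icc] at ha ⊢
      exact ⟨⟨hb, hba.trans ha.1.2⟩, ha.2.trans (h.anti b a hb hba ha.1.2)⟩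
    set S := (Finset.Icc 1 N).filter (fun j => i ≤ k j) with hS
    have hS1 : ∀ a ∈ S, 1 ≤ a := fun a ha => by
      rw [hS, Finset.mem_filter, Finset.mem_Icc] at ha; exact ha.1.1
    have hsub : S ⊆ Finset.Icc 1 S.card := by
      intro a ha
      rw [Finset.mem_Icc]
      refine ⟨hS1 a ha, ?_⟩
      have h1 : Finset.Icc 1 a ⊆ S := by
        intro b hb
        rw [Finset.mem_Icc] at hb
        exact hi a ha b hb.1 hb.2
      have := Finset.card_le_card h1
      simpa using this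
    exact Finset.eq_of_subset_of_card_le hsub (by rw [Nat.card_Icc, Nat.add_sub_cancel]; exact le_rfl)
  constructor
  · intro h1
    have : j ∈ Finset.Icc 1 (trp N k i) := Finset.mem_Icc.2 ⟨hj, h1⟩
    rw [← key, Finset.mem_filter] at this
    exact this.2
  · intro h1
    have : j ∈ (Finset.Icc 1 N).filter (fun j => i ≤ k j) :=
      Finset.mem_filter.2 ⟨Finset.mem_Icc.2 ⟨hj, hjN⟩, h1⟩
    rw [key, Finset.mem_Icc] at this
    exact this.2

theorem trp_le (N : ℕ) (k : ℕ → ℕ) (i : ℕ) : trp N k i ≤ N := by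
  have := Finset.card_filter_le (Finset.Icc 1 N) (fun j => i ≤ k j)
  simpa [trp] using this

theorem trp_yd {N M : ℕ} {k : ℕ → ℕ} (_h : YD N M k) : YD M N (trp N k) where
  anti i j _ hij _ := by
    refine Finset.card_le_card fun a ha => ?_
    rw [Finset.mem_filter] at ha ⊢
    exact ⟨ha.1, hij.trans ha.2⟩
  bd j _ _ := trp_le N k j

/-- the transposed diagram of the transposed diagram -/
theorem trp_trp {N M : ℕ} {k : ℕ → ℕ} (h : YD N M k) {j : ℕ} (hj : 1 ≤ j) (hjN : j ≤ N) :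
    trp M (trp N k) j = k j := by
  have : (Finset.Icc 1 M).filter (fun i => j ≤ trp N k i) = Finset.Icc 1 (k j) := by
    ext i
    rw [Finset.mem_filter, Finset.mem_Icc, Finset.mem_Icc, mem_trp h hj hjN]
    have := h.bd j hj hjN
    omega
  rw [trp, this]; simp

/-- number of obstacles of the diagram in the odd columns -/
noncomputable def n2 (L : ℕ → ℕ → Prop) (N M : ℕ) (k : ℕ → ℕ) : ℕ :=
  n1 (fun i j => L j i) M (trp N k)

/-- `k` with the row `j` changed -/
def upd (k : ℕ → ℕ) (j m : ℕ) : ℕ → ℕ := fun i => if i = j then m else k i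

/-- the rectangle `[1, a] × [1, b]` -/
def rect (a b : ℕ) : ℕ → ℕ := fun j => if j ≤ a then b else 0

theorem rect_yd {N M a b : ℕ} (hb : b ≤ M) : YD N M (rect a b) where
  anti i j _ hij _ := by simp only [rect]; split_ifs <;> omega
  bd j _ _ := by simp only [rect]; split_ifs <;> omega

/-- the rectangle without its corner -/
def rect' (a b : ℕ) : ℕ → ℕ := fun j => if j < a then b else if j = a then b - 1 else 0

theorem rect'_yd {N M a b : ℕ} (hb : b ≤ M) : YD N M (rect' a b) where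
  anti i j _ hij _ := by simp only [rect']; split_ifs <;> omega
  bd j _ _ := by simp only [rect']; split_ifs <;> omega

theorem cnt_succ (L : ℕ → ℕ → Prop) (j m : ℕ) (h : L j (m + 1)) : cnt L j (m + 1) = cnt L j m + 1 := by
  classical
  have : (Finset.Icc 1 (m + 1)).filter (fun i => L j i) =
      insert (m + 1) ((Finset.Icc 1 m).filter (fun i => L j i)) := by
    ext i
    simp only [Finset.mem_filter, Finset.mem_Icc, Finset.mem_insert]
    constructor
    · rintro ⟨⟨h1, h2⟩, h3⟩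
      by_cases h4 : i = m + 1
      · exact Or.inl h4
      · exact Or.inr ⟨⟨h1, by omega⟩, h3⟩
    · rintro (rfl | ⟨⟨h1, h2⟩, h3⟩)
      · exact ⟨⟨by omega, le_rfl⟩, h⟩
      · exact ⟨⟨h1, by omega⟩, h3⟩
  rw [cnt, cnt]
  convert Finset.card_insert_of_notMem (s := (Finset.Icc 1 m).filter (fun i => L j i)) (a := m + 1) ?_ using 2
  simp

/-- `n1` counts one more obstacle for `rect` than for `rect'` iff the corner is in an odd row -/
theorem n1_rect (L : ℕ → ℕ → Prop) {N a b : ℕ} (ha : 1 ≤ a) (haN : a ≤ N) (hb : 1 ≤ b) (h : L a b) :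
    n1 L N (rect a b) = n1 L N (rect' a b) + if a % 2 = 1 then 1 else 0 := by
  classical
  have hne : ∀ j ∈ (Finset.Icc 1 N).filter (fun j => j % 2 = 1), j ≠ a →
      cnt L j (rect a b j) = cnt L j (rect' a b j) := by
    intro j _ hj
    congr 1
    simp only [rect, rect']
    split_ifs <;> omega
  have hcorner : cnt L a (rect a b a) = cnt L a (rect' a b a) + 1 := by
    have h1 : rect a b a = (b - 1) + 1 := by simp [rect]; omega
    have h2 : rect' a b a = b - 1 := by simp [rect']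
    rw [h1, h2, cnt_succ]
    rwa [Nat.sub_add_cancel hb]
  unfold n1
  by_cases hodd : a % 2 = 1
  · rw [if_pos hodd]
    have hmem : a ∈ (Finset.Icc 1 N).filter (fun j => j % 2 = 1) :=
      Finset.mem_filter.2 ⟨Finset.mem_Icc.2 ⟨ha, haN⟩, hodd⟩
    rw [← Finset.add_sum_erase _ _ hmem, ← Finset.add_sum_erase _ _ hmem, hcorner]
    rw [Finset.sum_congr rfl fun j hj => hne j (Finset.mem_of_mem_erase hj) (Finset.ne_of_mem_erase hj)]
    ring
  · rw [if_neg hodd, add_zero]
    refine Finset.sum_congr rfl fun j hj => ?_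
    by_cases h1 : j = a
    · subst h1
      exact absurd (Finset.mem_filter.1 hj).2 hodd
    · exact hne j hj h1

theorem cnt_congr (L : ℕ → ℕ → Prop) {j m m' : ℕ} (h : m = m') : cnt L j m = cnt L j m' := by rw [h]

theorem n1_congr (L : ℕ → ℕ → Prop) {N : ℕ} {k k' : ℕ → ℕ} (h : ∀ j, 1 ≤ j → j ≤ N → k j = k' j) :
    n1 L N k = n1 L N k' := by
  classical
  refine Finset.sum_congr rfl fun j hj => ?_
  rw [Finset.mem_filter, Finset.mem_Icc] at hj
  rw [h j hj.1.1 hj.1.2]

theorem trp_rect {N a b : ℕ} (haN : a ≤ N) {i : ℕ} (hi : 1 ≤ i) : trp N (rect a b) i = rect b a i := by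
  have : (Finset.Icc 1 N).filter (fun j => i ≤ rect a b j) = Finset.Icc 1 (rect b a i) := by
    ext j
    rw [Finset.mem_filter, Finset.mem_Icc, Finset.mem_Icc]
    simp only [rect]
    split_ifs <;> omega
  rw [trp, this]; simp

theorem trp_rect' {N a b : ℕ} (ha : 1 ≤ a) (haN : a ≤ N) (hb : 1 ≤ b) {i : ℕ} (hi : 1 ≤ i) :
    trp N (rect' a b) i = rect' b a i := by
  have : (Finset.Icc 1 N).filter (fun j => i ≤ rect' a b j) = Finset.Icc 1 (rect' b a i) := by
    ext j
    rw [Finset.mem_filter, Finset.mem_Icc, Finset.mem_Icc]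
    simp only [rect']
    split_ifs <;> omega
  rw [trp, this]; simp

theorem n2_rect (L : ℕ → ℕ → Prop) {N M a b : ℕ} (ha : 1 ≤ a) (haN : a ≤ N) (hb : 1 ≤ b) (hbM : b ≤ M)
    (h : L a b) :
    n2 L N M (rect a b) = n2 L N M (rect' a b) + if b % 2 = 1 then 1 else 0 := by
  unfold n2
  rw [n1_congr _ (k := trp N (rect a b)) (k' := rect b a) fun i hi _ => trp_rect haN hi,
    n1_congr _ (k := trp N (rect' a b)) (k' := rect' b a) fun i hi _ => trp_rect' ha haN hb hi]
  exact n1_rect (fun i j => L j i) hb hbM ha h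

/-- **All diagrams are equivalent** if the diagrams with the same `n1` mod 2 are, those with the same `n2` mod 2
are, and there is an obstacle `(a, b)` with `a + b` odd. -/
theorem all_eq {L : ℕ → ℕ → Prop} {N M : ℕ} {E : (ℕ → ℕ) → (ℕ → ℕ) → Prop}
    (symm : ∀ k k', E k k' → E k' k) (trans : ∀ k k' k'', E k k' → E k' k'' → E k k'')
    (h1 : ∀ k k', YD N M k → YD N M k' → n1 L N k % 2 = n1 L N k' % 2 → E k k')
    (h2 : ∀ k k', YD N M k → YD N M k' → n2 L N M k % 2 = n2 L N M k' % 2 → E k k')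
    (hz : ∃ a b, 1 ≤ a ∧ a ≤ N ∧ 1 ≤ b ∧ b ≤ M ∧ L a b ∧ (a + b) % 2 = 1)
    {k k' : ℕ → ℕ} (hk : YD N M k) (hk' : YD N M k') : E k k' := by
  obtain ⟨a, b, ha, haN, hb, hbM, hL, hab⟩ := hz
  have e1 := n1_rect L (N := N) ha haN hb hL
  have e2 := n2_rect L ha haN hb hbM hL
  -- there is an intermediate diagram with the other parity of n1 + n2
  have key : ∃ T, YD N M T ∧ (n1 L N T + n2 L N M T) % 2 ≠ (n1 L N k + n2 L N M k) % 2 := by
    by_cases h3 : (n1 L N (rect a b) + n2 L N M (rect a b)) % 2 ≠ (n1 L N k + n2 L N M k) % 2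
    · exact ⟨_, rect_yd hbM, h3⟩
    · refine ⟨_, rect'_yd (a := a) (b := b) hbM, ?_⟩
      have : a % 2 = 1 ∧ b % 2 = 0 ∨ a % 2 = 0 ∧ b % 2 = 1 := by omega
      rcases this with ⟨h4, h5⟩ | ⟨h4, h5⟩
      · rw [if_pos h4] at e1; rw [if_neg (by omega)] at e2; omega
      · rw [if_neg (by omega)] at e1; rw [if_pos h5] at e2; omega
  obtain ⟨T, hT, hTp⟩ := key
  by_cases c1 : n1 L N k % 2 = n1 L N k' % 2
  · exact h1 _ _ hk hk' c1
  by_cases c2 : n2 L N M k % 2 = n2 L N M k' % 2
  · exact h2 _ _ hk hk' c2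
  by_cases c3 : n1 L N T % 2 = n1 L N k % 2
  · exact trans _ T _ (symm _ _ (h1 _ _ hT hk c3)) (h2 _ _ hT hk' (by omega))
  · exact trans _ T _ (symm _ _ (h2 _ _ hT hk (by omega))) (h1 _ _ hT hk' (by omega))

end Pool.Agent.CSW
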